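import Pool.Agent.H61.G.Basic

/-!
Theorem G (MP_ee74d2_an), row GBE: energy of localized sub-sums.
-/

set_option autoImplicit false

namespace Pool.Agent.H68.G.GBE

open Pool.Agent.H83.G Pool.Agent.H61.G
open MeasureTheory Set
open scoped ENNReal NNReal RealInnerProductSpace

/-! ### the integral of the two weights -/

private theorem lint_scale {V : Type} [NormedAddCommGroup V] [NormedSpace ℝ V]
    [FiniteDimensional ℝ V] [MeasurableSpace V] [BorelSpace V] (μ : Measure V)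
    [μ.IsAddHaarMeasure] (f : V → ℝ≥0∞) (hf : Measurable f) (c : ℝ) (hc : 0 < c) (b : V) :
    ∫⁻ x, f (c • x - b) ∂μ = ENNReal.ofReal ((c⁻¹) ^ Module.finrank ℝ V) * ∫⁻ x, f x ∂μ := by
  have h1 : ∫⁻ x, f (c • x - b) ∂μ = ∫⁻ y, f (y - b) ∂(Measure.map (fun x => c • x) μ) :=
    (lintegral_map (hf.comp (measurable_sub_const b)) (measurable_const_smul c)).symm
  rw [h1, Measure.map_addHaar_smul μ hc.ne', lintegral_smul_measure,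
    lintegral_sub_right_eq_self (μ := μ) f b, smul_eq_mul]
  congr 2
  rw [inv_pow, abs_of_pos (by positivity)]

private noncomputable def f1 (t : ℝ) : ℝ≥0∞ := ENNReal.ofReal (((1 + ‖t‖) ^ 2)⁻¹)

private noncomputable def f2 (m : ℕ) (y : E m) : ℝ≥0∞ := ENNReal.ofReal (((1 + ‖y‖) ^ (m + 1))⁻¹)

private theorem f1_meas : Measurable f1 := by
  unfold f1
  refine ENNReal.measurable_ofReal.comp (Continuous.measurable ?_)
  exact Continuous.inv₀ (f := fun t : ℝ => (1 + ‖t‖) ^ 2) (by fun_prop) fun t => by positivity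

private theorem f2_meas (m : ℕ) : Measurable (f2 m) := by
  unfold f2
  refine ENNReal.measurable_ofReal.comp (Continuous.measurable ?_)
  exact Continuous.inv₀ (f := fun y : E m => (1 + ‖y‖) ^ (m + 1)) (by fun_prop)
    fun t => by positivity

private theorem f1_fin : ∫⁻ t, f1 t < ∞ := by
  have h := finite_integral_one_add_norm (E := ℝ) (μ := (volume : Measure ℝ)) (r := 2)
    (by simp)
  refine lt_of_le_of_lt (le_of_eq ?_) h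
  refine lintegral_congr fun t => ?_
  unfold f1
  congr 1
  rw [Real.rpow_neg (by positivity)]
  norm_cast

private theorem f2_fin (m : ℕ) : ∫⁻ y, f2 m y < ∞ := by
  have h := finite_integral_one_add_norm (E := E m) (μ := (volume : Measure (E m)))
    (r := ((m + 1 : ℕ) : ℝ)) (by
      rw [finrank_euclideanSpace, Fintype.card_fin]
      exact_mod_cast Nat.lt_succ_self m)
  refine lt_of_le_of_lt (le_of_eq ?_) h
  refine lintegral_congr fun t => ?_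
  unfold f2
  congr 1
  rw [Real.rpow_neg (by positivity), Real.rpow_natCast]

private theorem wt_split (m : ℕ) (z : Z m) :
    ENNReal.ofReal (wt (m + 3) z) ≤ f1 z.1 * f2 m z.2.1 := by
  unfold f1 f2 wt
  rw [← ENNReal.ofReal_mul (by positivity)]
  refine ENNReal.ofReal_le_ofReal ?_
  rw [← mul_inv]
  refine inv_anti₀ (by positivity) ?_
  have h1 : ‖z.1‖ ≤ ‖z‖ := norm_fst_le z
  have h2 : ‖z.2.1‖ ≤ ‖z‖ := (norm_fst_le z.2).trans (norm_snd_le z)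
  calc (1 + ‖z.1‖) ^ 2 * (1 + ‖z.2.1‖) ^ (m + 1) ≤ (1 + ‖z‖) ^ 2 * (1 + ‖z‖) ^ (m + 1) := by gcongr
    _ = (1 + ‖z‖) ^ (m + 3) := by rw [← pow_add]; congr 1; ring

private theorem int_bound (hLOI : T_LOI) (m : ℕ) : ∃ K : ℝ≥0, ∀ (R r δ : ℝ) (η : E m) (w₁ : ℝ)
    (x : Z m), 1 ≤ R → 0 < r →
    ∫⁻ z : Z m, f1 (r⁻¹ * (z.2.2 - w₁)) *
      ENNReal.ofReal (wt (m + 3) (R ^ (-δ) • Lo η (sR R) z - x)) ≤
      K * ENNReal.ofReal (R ^ (δ * ((m : ℝ) + 1)) * r * R ^ ((m : ℝ) / 2)) := by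
  obtain ⟨K1, hK1⟩ : ∃ K : ℝ≥0, ∫⁻ t, f1 t = K := ⟨(∫⁻ t, f1 t).toNNReal,
    (ENNReal.coe_toNNReal f1_fin.ne).symm⟩
  obtain ⟨K2, hK2⟩ : ∃ K : ℝ≥0, ∫⁻ y, f2 m y = K := ⟨(∫⁻ t, f2 m t).toNNReal,
    (ENNReal.coe_toNNReal (f2_fin m).ne).symm⟩
  refine ⟨K1 * K2 * K1, ?_⟩
  intro R r δ η w₁ x hR hr
  have hR0 : 0 < R := by linarith
  have hs := sR_pos hR
  have hs2 := sR_sq hR
  obtain ⟨h1, -⟩ := hLOI m η (sR R) hs
  obtain ⟨F, hF⟩ : ∃ F : Z m → ℝ≥0∞, F = fun z' : Z m => f1 ((r⁻¹ * R) • z'.2.2 - r⁻¹ * w₁) *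
        ENNReal.ofReal (wt (m + 3) (R ^ (-δ) • z' - x)) := ⟨_, rfl⟩
  have h2 : ∫⁻ z : Z m, f1 (r⁻¹ * (z.2.2 - w₁)) *
      ENNReal.ofReal (wt (m + 3) (R ^ (-δ) • Lo η (sR R) z - x)) =
      ∫⁻ z : Z m, F (Lo η (sR R) z) := by
    refine lintegral_congr fun z => ?_
    rw [hF]
    beta_reduce
    have h3 : (Lo η (sR R) z).2.2 = sR R ^ 2 * z.2.2 := rfl
    rw [h3, smul_eq_mul]
    congr 2
    calc r⁻¹ * (z.2.2 - w₁) = r⁻¹ * ((sR R ^ 2 * R) * z.2.2) - r⁻¹ * w₁ := by rw [hs2]; ring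
      _ = _ := by ring
  rw [h2, h1, hF]
  have hc : 0 < R ^ (-δ) := Real.rpow_pos_of_pos hR0 _
  have hc' : (R ^ (-δ))⁻¹ = R ^ δ := by rw [Real.rpow_neg hR0.le, inv_inv]
  have h4 : ∫⁻ z' : Z m, f1 ((r⁻¹ * R) • z'.2.2 - r⁻¹ * w₁) *
        ENNReal.ofReal (wt (m + 3) (R ^ (-δ) • z' - x)) ≤
      ENNReal.ofReal ((R ^ δ) ^ (m + 1) * (r * R⁻¹)) * (K1 * K2 * K1) := by
    calc ∫⁻ z' : Z m, f1 ((r⁻¹ * R) • z'.2.2 - r⁻¹ * w₁) *
          ENNReal.ofReal (wt (m + 3) (R ^ (-δ) • z' - x))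
        ≤ ∫⁻ z' : ℝ × (E m × ℝ), f1 (R ^ (-δ) • z'.1 - x.1) *
          (fun u : E m × ℝ => f2 m (R ^ (-δ) • u.1 - x.2.1) *
            f1 ((r⁻¹ * R) • u.2 - r⁻¹ * w₁)) z'.2 := by
          refine lintegral_mono fun z' => ?_
          have h5 := wt_split m (R ^ (-δ) • z' - x)
          have h6 : (R ^ (-δ) • z' - x).1 = R ^ (-δ) • z'.1 - x.1 := rfl
          have h7 : (R ^ (-δ) • z' - x).2.1 = R ^ (-δ) • z'.2.1 - x.2.1 := rfl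
          rw [h6, h7] at h5
          calc f1 ((r⁻¹ * R) • z'.2.2 - r⁻¹ * w₁) *
                ENNReal.ofReal (wt (m + 3) (R ^ (-δ) • z' - x))
              ≤ f1 ((r⁻¹ * R) • z'.2.2 - r⁻¹ * w₁) *
                (f1 (R ^ (-δ) • z'.1 - x.1) * f2 m (R ^ (-δ) • z'.2.1 - x.2.1)) :=
                mul_le_mul' le_rfl h5
            _ = _ := by ring
      _ = (∫⁻ t, f1 (R ^ (-δ) • t - x.1)) * ∫⁻ u : E m × ℝ, f2 m (R ^ (-δ) • u.1 - x.2.1) *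
            f1 ((r⁻¹ * R) • u.2 - r⁻¹ * w₁) := by
          rw [Measure.volume_eq_prod]
          exact lintegral_prod_mul (f := fun t : ℝ => f1 (R ^ (-δ) • t - x.1))
            (g := fun u : E m × ℝ => f2 m (R ^ (-δ) • u.1 - x.2.1) *
              f1 ((r⁻¹ * R) • u.2 - r⁻¹ * w₁))
            (f1_meas.comp (by fun_prop)).aemeasurable
            (((f2_meas m).comp (by fun_prop)).mul (f1_meas.comp (by fun_prop))).aemeasurable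
      _ = (∫⁻ t, f1 (R ^ (-δ) • t - x.1)) * ((∫⁻ y, f2 m (R ^ (-δ) • y - x.2.1)) *
            ∫⁻ t : ℝ, f1 ((r⁻¹ * R) • t - r⁻¹ * w₁)) := by
          rw [Measure.volume_eq_prod (E m) ℝ]
          rw [lintegral_prod_mul (f := fun y : E m => f2 m (R ^ (-δ) • y - x.2.1))
            (g := fun t : ℝ => f1 ((r⁻¹ * R) • t - r⁻¹ * w₁))
            ((f2_meas m).comp (by fun_prop)).aemeasurable
            (f1_meas.comp (by fun_prop)).aemeasurable]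
      _ = _ := by
          rw [lint_scale volume f1 f1_meas _ hc, lint_scale volume (f2 m) (f2_meas m) _ hc,
            lint_scale volume f1 f1_meas _ (by positivity : 0 < r⁻¹ * R), hK1, hK2,
            Module.finrank_self, finrank_euclideanSpace, Fintype.card_fin, hc', mul_inv, inv_inv]
          have h5 : ENNReal.ofReal ((R ^ δ) ^ (m + 1) * (r * R⁻¹)) =
              ENNReal.ofReal ((R ^ δ) ^ 1) * ENNReal.ofReal ((R ^ δ) ^ m) *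
                ENNReal.ofReal ((r * R⁻¹) ^ 1) := by
            rw [← ENNReal.ofReal_mul (by positivity), ← ENNReal.ofReal_mul (by positivity)]
            congr 1
            ring
          rw [h5]
          ring
  refine (mul_le_mul' le_rfl h4).trans (le_of_eq ?_)
  rw [← mul_assoc, ← ENNReal.ofReal_mul (by positivity), mul_comm]
  push_cast
  congr 2
  have h8 : (sR R)⁻¹ ^ (m + 2) = R ^ (((m : ℝ) + 2) / 2) := by
    unfold sR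
    rw [inv_inv, Real.sqrt_eq_rpow, ← Real.rpow_natCast, ← Real.rpow_mul hR0.le]
    congr 1
    push_cast
    ring
  have h9 : (R ^ δ) ^ (m + 1) = R ^ (δ * ((m : ℝ) + 1)) := by
    rw [← Real.rpow_natCast, ← Real.rpow_mul hR0.le]
    push_cast
    rfl
  have h10 : R ^ (((m : ℝ) + 2) / 2) = R ^ ((m : ℝ) / 2) * R := by
    rw [show ((m : ℝ) + 2) / 2 = (m : ℝ) / 2 + 1 by ring, Real.rpow_add hR0, Real.rpow_one]
  rw [h8, h9, h10]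
  field_simp

/-! ### orthogonality of the caps -/

private theorem few {ι : Type} (B : Finset ι) (f : ι → ℂ) (M : ℕ)
    (h : (B.filter (fun β => f β ≠ 0)).card ≤ M) :
    ‖∑ β ∈ B, f β‖ₑ ^ 2 ≤ M * ∑ β ∈ B, ‖f β‖ₑ ^ 2 := by
  classical
  have h1 : ∑ β ∈ B, f β = ∑ β ∈ B.filter (fun β => f β ≠ 0), f β :=
    (Finset.sum_filter_ne_zero B).symm
  have h2 : ∀ x : ℂ, ‖x‖ₑ ^ 2 = ENNReal.ofReal (‖x‖ ^ 2) := by
    intro x
    rw [← ofReal_norm, ENNReal.ofReal_pow (norm_nonneg _)]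
  simp_rw [h2]
  rw [← ENNReal.ofReal_sum_of_nonneg (fun β _ => by positivity), ← ENNReal.ofReal_natCast,
    ← ENNReal.ofReal_mul (Nat.cast_nonneg M)]
  apply ENNReal.ofReal_le_ofReal
  calc ‖∑ β ∈ B, f β‖ ^ 2 = ‖∑ β ∈ B.filter (fun β => f β ≠ 0), f β‖ ^ 2 := by rw [h1]
    _ ≤ (∑ β ∈ B.filter (fun β => f β ≠ 0), ‖f β‖) ^ 2 :=
        pow_le_pow_left₀ (norm_nonneg _) (norm_sum_le _ _) 2
    _ ≤ ((B.filter (fun β => f β ≠ 0)).card : ℝ) * ∑ β ∈ B.filter (fun β => f β ≠ 0), ‖f β‖ ^ 2 :=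
        sq_sum_le_card_mul_sum_sq
    _ ≤ (M : ℝ) * ∑ β ∈ B, ‖f β‖ ^ 2 := by
        apply mul_le_mul (by exact_mod_cast h) _ (by positivity) (Nat.cast_nonneg M)
        exact Finset.sum_le_sum_of_subset_of_nonneg (Finset.filter_subset _ _)
          (fun β _ _ => by positivity)

private theorem planch (hPLN : T_PLN) {m : ℕ} {G : Z m → ℂ} (hG : TC G) :
    ∫⁻ z, ‖TF G z‖ₑ ^ 2 = ∫⁻ ζ, ‖G ζ‖ₑ ^ 2 := by
  obtain ⟨h1, h2⟩ := hPLN m G hG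
  rw [h1, h2]

private theorem orth (hPLN : T_PLN) (hPUS : T_PUS) (m : ℕ) : ∃ Co : ℕ, ∀ (R : ℝ)
    (G' : (Fin m → ℤ) → Z m → ℂ) (I : Finset (Fin m → ℤ)), 1 ≤ R → (∀ k ∈ I, TC (G' k)) →
    (∀ k ∈ I, ∀ ζ, G' k ζ ≠ 0 → ‖ζ.1⁻¹ • ζ.2.1 - ctr (sR R) k‖ ≤ 2 * sR R) →
    ∫⁻ z, ‖∑ k ∈ I, TF (G' k) z‖ₑ ^ 2 ≤ Co * ∑ k ∈ I, ∫⁻ z, ‖TF (G' k) z‖ₑ ^ 2 := by
  classical
  obtain ⟨-, -, C, hC, -, h5, -⟩ := hPUS m
  refine ⟨⌈C * (1 + 2) ^ m⌉₊, ?_⟩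
  intro R G' I hR hT hs
  have hs0 := sR_pos hR
  have h1 : ∫⁻ z, ‖∑ k ∈ I, TF (G' k) z‖ₑ ^ 2 = ∫⁻ ζ, ‖∑ k ∈ I, G' k ζ‖ₑ ^ 2 := by
    rw [← planch hPLN (tc_sum hT)]
    refine lintegral_congr fun z => ?_
    rw [TF_sum hT z]
  rw [h1]
  have h2 : ∀ ζ, ‖∑ k ∈ I, G' k ζ‖ₑ ^ 2 ≤ (⌈C * (1 + 2) ^ m⌉₊ : ℝ≥0∞) *
      ∑ k ∈ I, ‖G' k ζ‖ₑ ^ 2 := by
    intro ζ
    refine few I (fun k => G' k ζ) _ ?_
    have h3 := h5 (sR R) (2 * sR R) (ζ.1⁻¹ • ζ.2.1) (I.filter fun k => G' k ζ ≠ 0) hs0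
      (by positivity) (fun k hk => by
        obtain ⟨hk1, hk2⟩ := Finset.mem_filter.1 hk
        rw [norm_sub_rev]
        exact hs k hk1 ζ hk2)
    rw [mul_div_assoc, div_self hs0.ne', mul_one] at h3
    exact_mod_cast h3.trans (Nat.le_ceil _)
  refine (lintegral_mono h2).trans (le_of_eq ?_)
  have hmeas : ∀ k ∈ I, Measurable fun ζ => ‖G' k ζ‖ₑ ^ 2 := fun k hk =>
    ((hT k hk).1.continuous.measurable.enorm).pow_const 2
  rw [lintegral_const_mul' _ _ (ENNReal.natCast_ne_top _), lintegral_finsetSum' _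
    fun k hk => (hmeas k hk).aemeasurable]
  congr 1
  exact Finset.sum_congr rfl fun k hk => (planch hPLN (hT k hk)).symm

/-! ### one cap -/

private theorem sum_wt (hWT3 : T_WT3) (m : ℕ) : ∃ Cw : ℝ, 0 ≤ Cw ∧ ∀ (S : Finset (Pk m))
    (k : Fin m → ℤ) (x : Z m), (∀ W ∈ S, W.1 = k) →
    ∑ W ∈ S, wt (m + 3) (x - zc W.2) ≤ Cw := by
  classical
  obtain ⟨C, h1, -⟩ := hWT3 m (m + 3) le_rfl
  refine ⟨C, C.2, ?_⟩
  intro S k x hS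
  have h2 := h1 1 x one_pos le_rfl
  simp only [one_smul, inv_one, one_pow, ENNReal.ofReal_one, mul_one] at h2
  have h3 : ∑ W ∈ S, ENNReal.ofReal (wt (m + 3) (x - zc W.2)) ≤ C := by
    have h4 : ∑ W ∈ S, ENNReal.ofReal (wt (m + 3) (x - zc W.2)) =
        ∑ l ∈ S.image Prod.snd, ENNReal.ofReal (wt (m + 3) (zc l - x)) := by
      rw [Finset.sum_image]
      · refine Finset.sum_congr rfl fun W _ => ?_
        unfold wt
        rw [norm_sub_rev]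
      · intro W hW W' hW' hWW'
        exact Prod.ext ((hS W hW).trans (hS W' hW').symm) hWW'
    rw [h4]
    exact (ENNReal.sum_le_tsum _).trans h2
  rw [← ENNReal.ofReal_sum_of_nonneg fun W _ => (wt_pos _ _).le] at h3
  have h5 : ENNReal.ofReal (∑ W ∈ S, wt (m + 3) (x - zc W.2)) ≤ ENNReal.ofReal (C : ℝ) := by
    rwa [ENNReal.ofReal_coe_nnreal]
  exact (ENNReal.ofReal_le_ofReal_iff C.2).1 h5

private theorem wt_one_sq {m : ℕ} (y : Z m) : wt 1 y ^ 2 ≤ ((1 + ‖y.2.2‖) ^ 2)⁻¹ := by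
  unfold wt
  rw [pow_one, ← inv_pow]
  refine pow_le_pow_left₀ (by positivity) (inv_anti₀ (by positivity) ?_) 2
  have h1 : ‖y.2.2‖ ≤ ‖y‖ := (norm_snd_le y.2).trans (norm_snd_le y)
  linarith

/-- the pointwise bound -/
private theorem ptw {m : ℕ} {Cχ Cp Cw P χv : ℝ} {S : Finset (Pk m)} {F : Pk m → ℂ}
    {a ω : Pk m → ℝ} {y : Z m}
    (hχ : ‖(χv : ℂ)‖ ≤ Cχ * wt 1 y) (hω : ∀ W, 0 ≤ ω W)
    (hF : ∀ W ∈ S, ‖F W‖ ≤ Cp * P * a W * ω W) (hCw : ∑ W ∈ S, ω W ≤ Cw) :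
    ‖(χv : ℂ) * ∑ W ∈ S, F W‖ₑ ^ 2 ≤ ENNReal.ofReal (Cχ ^ 2 * (Cp * P) ^ 2 * Cw) *
      ∑ W ∈ S, ENNReal.ofReal (a W ^ 2) * (f1 y.2.2 * ENNReal.ofReal (ω W)) := by
  have hCw0 : 0 ≤ Cw := (Finset.sum_nonneg fun W _ => hω W).trans hCw
  have h1 : ‖∑ W ∈ S, F W‖ ≤ Cp * P * ∑ W ∈ S, a W * ω W := by
    refine (norm_sum_le _ _).trans ?_
    rw [Finset.mul_sum]
    refine Finset.sum_le_sum fun W hW => (hF W hW).trans (le_of_eq (by ring))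
  have h2 : (∑ W ∈ S, a W * ω W) ^ 2 ≤ Cw * ∑ W ∈ S, a W ^ 2 * ω W := by
    refine (Finset.sum_sq_le_sum_mul_sum_of_sq_le_mul S (f := ω) (g := fun W => a W ^ 2 * ω W)
      (fun W _ => hω W) (fun W _ => mul_nonneg (sq_nonneg _) (hω W))
      (fun W _ => le_of_eq (by ring))).trans ?_
    exact mul_le_mul_of_nonneg_right hCw
      (Finset.sum_nonneg fun W _ => mul_nonneg (sq_nonneg _) (hω W))
  have hSn : 0 ≤ ∑ W ∈ S, a W ^ 2 * ω W :=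
    Finset.sum_nonneg fun W _ => mul_nonneg (sq_nonneg _) (hω W)
  have h3 : ‖(χv : ℂ) * ∑ W ∈ S, F W‖ ^ 2 ≤ Cχ ^ 2 * (Cp * P) ^ 2 * Cw *
      ∑ W ∈ S, a W ^ 2 * (((1 + ‖y.2.2‖) ^ 2)⁻¹ * ω W) := by
    have e1 : ∑ W ∈ S, a W ^ 2 * (((1 + ‖y.2.2‖) ^ 2)⁻¹ * ω W) =
        ((1 + ‖y.2.2‖) ^ 2)⁻¹ * ∑ W ∈ S, a W ^ 2 * ω W := by
      rw [Finset.mul_sum]
      exact Finset.sum_congr rfl fun W _ => by ring
    rw [norm_mul, mul_pow, e1]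
    have h4 : ‖(χv : ℂ)‖ ^ 2 ≤ Cχ ^ 2 * ((1 + ‖y.2.2‖) ^ 2)⁻¹ := by
      refine (pow_le_pow_left₀ (norm_nonneg _) hχ 2).trans ?_
      rw [mul_pow]
      exact mul_le_mul_of_nonneg_left (wt_one_sq y) (sq_nonneg _)
    have h5 : ‖∑ W ∈ S, F W‖ ^ 2 ≤ (Cp * P) ^ 2 * (Cw * ∑ W ∈ S, a W ^ 2 * ω W) := by
      refine (pow_le_pow_left₀ (norm_nonneg _) h1 2).trans ?_
      rw [mul_pow]
      exact mul_le_mul_of_nonneg_left h2 (sq_nonneg _)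
    refine (mul_le_mul h4 h5 (by positivity) (by positivity)).trans (le_of_eq ?_)
    ring
  have h6 : ‖(χv : ℂ) * ∑ W ∈ S, F W‖ₑ ^ 2 =
      ENNReal.ofReal (‖(χv : ℂ) * ∑ W ∈ S, F W‖ ^ 2) := by
    rw [← ofReal_norm, ENNReal.ofReal_pow (norm_nonneg _)]
  rw [h6]
  refine (ENNReal.ofReal_le_ofReal h3).trans (le_of_eq ?_)
  rw [ENNReal.ofReal_mul (by positivity), ENNReal.ofReal_sum_of_nonneg fun W _ =>
    mul_nonneg (sq_nonneg _) (mul_nonneg (by positivity) (hω W))]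
  congr 1
  refine Finset.sum_congr rfl fun W _ => ?_
  rw [ENNReal.ofReal_mul (sq_nonneg _), ENNReal.ofReal_mul (by positivity), f1]

private theorem one_cap (hLOI : T_LOI) (hWT3 : T_WT3) (hPTW : T_PTW) (hSCH : T_SCH)
    (m N : ℕ) (β : E m → ℂ) (Ψ Ξ : Z m → ℂ) (ψ χ : Z m → ℝ) (δ : ℝ) (hβ : IsPU β)
    (hψ : IsPsi Ψ ψ) (hχ : IsLow Ξ χ) (hδ : 0 ≤ δ) : ∃ K : ℝ≥0, ∀ (R r : ℝ) (G : Z m → ℂ)
    (S : Finset (Pk m)) (z₁ : Z m) (k : Fin m → ℤ), 1 ≤ R → 0 < r → TC G →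
    (∀ ζ, G ζ ≠ 0 → ζ ∈ Rg m (1 / 2) R⁻¹) → (∀ W ∈ S, W.1 = k) →
    ∫⁻ z, ‖(χ (r⁻¹ • (z - z₁)) : ℂ) * ∑ W ∈ S, Fp β ψ R δ G W z‖ₑ ^ 2 ≤
      K * ENNReal.ofReal (R ^ (δ * (2 * (m : ℝ) + 3)) * r * R ^ ((m : ℝ) / 2)) *
        ∑ W ∈ S, al2 N β R δ G W := by
  obtain ⟨K1, hK1⟩ := int_bound hLOI m
  obtain ⟨Cw, hCw0, hCw⟩ := sum_wt hWT3 m
  obtain ⟨Cp, hCp0, hCp⟩ := hPTW m N (m + 3) β Ψ ψ δ hβ hψ hδ
  obtain ⟨-, hSC⟩ := hSCH m Ξ hχ.1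
  obtain ⟨Cχ, hCχ0, hCχ⟩ := hSC 1
  refine ⟨⟨Cχ ^ 2 * Cp ^ 2 * Cw, by positivity⟩ * K1, ?_⟩
  intro R r G S z₁ k hR hr hG hGs hS
  have hR0 : 0 < R := by linarith
  set P : ℝ := R ^ (δ * ((m : ℝ) + 2) / 2) with hP
  have hP0 : 0 ≤ P := Real.rpow_nonneg hR0.le _
  obtain ⟨ω, hω⟩ : ∃ ω : Pk m → Z m → ℝ, ω = fun W z => wt (m + 3)
    (R ^ (-δ) • Lo (ctr (sR R) k) (sR R) z - zc W.2) := ⟨_, rfl⟩
  have hω0 : ∀ W z, 0 ≤ ω W z := fun W z => by rw [hω]; exact (wt_pos _ _).le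
  have hωc : ∀ W, Continuous (ω W) := by
    intro W
    rw [hω]
    have hL : Continuous (Lo (ctr (sR R) k) (sR R) : Z m → Z m) := cont_Lo _ _
    have h1 : Continuous fun z : Z m => R ^ (-δ) • Lo (ctr (sR R) k) (sR R) z - zc W.2 := by
      fun_prop
    unfold wt
    exact Continuous.inv₀ ((continuous_const.add h1.norm).pow _) fun z => by positivity
  have hpt : ∀ z, ‖(χ (r⁻¹ • (z - z₁)) : ℂ) * ∑ W ∈ S, Fp β ψ R δ G W z‖ₑ ^ 2 ≤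
      ENNReal.ofReal (Cχ ^ 2 * (Cp * P) ^ 2 * Cw) * ∑ W ∈ S,
        ENNReal.ofReal (al N β R δ G W ^ 2) * (f1 (r⁻¹ * (z.2.2 - z₁.2.2)) *
          ENNReal.ofReal (ω W z)) := by
    intro z
    have h1 := ptw (S := S) (F := fun W => Fp β ψ R δ G W z) (a := fun W => al N β R δ G W)
      (ω := fun W => ω W z) (y := r⁻¹ • (z - z₁)) (χv := χ (r⁻¹ • (z - z₁))) (Cw := Cw)
      (by rw [hχ.2.2.1]; exact hCχ _) (fun W => hω0 W z)
      (fun W hW => by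
        refine (hCp R G W z hR hG hGs).trans (le_of_eq ?_)
        rw [hω]
        unfold fc
        rw [hS W hW])
      (by rw [hω]; exact hCw S k _ hS)
    exact h1
  refine (lintegral_mono hpt).trans ?_
  rw [lintegral_const_mul' _ _ ENNReal.ofReal_ne_top]
  have hf1c : Measurable fun z : Z m => f1 (r⁻¹ * (z.2.2 - z₁.2.2)) :=
    f1_meas.comp (Continuous.measurable (by fun_prop))
  rw [lintegral_finsetSum' _ fun W _ => by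
    refine Measurable.aemeasurable ?_
    refine Measurable.const_mul ?_ _
    exact hf1c.mul (ENNReal.measurable_ofReal.comp (hωc W).measurable)]
  have h2 : ∀ W ∈ S, ∫⁻ z, ENNReal.ofReal (al N β R δ G W ^ 2) *
      (f1 (r⁻¹ * (z.2.2 - z₁.2.2)) * ENNReal.ofReal (ω W z)) ≤
      al2 N β R δ G W * (K1 * ENNReal.ofReal (R ^ (δ * ((m : ℝ) + 1)) * r *
        R ^ ((m : ℝ) / 2))) := by
    intro W _
    rw [lintegral_const_mul' _ _ ENNReal.ofReal_ne_top]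
    refine mul_le_mul' ?_ ?_
    · unfold al
      rw [Real.sq_sqrt ENNReal.toReal_nonneg]
      exact ENNReal.ofReal_toReal_le
    · rw [hω]
      exact hK1 R r δ _ _ _ hR hr
  refine (mul_le_mul' le_rfl (Finset.sum_le_sum h2)).trans (le_of_eq ?_)
  rw [← Finset.sum_mul]
  have h3 : ENNReal.ofReal (Cχ ^ 2 * (Cp * P) ^ 2 * Cw) *
      ENNReal.ofReal (R ^ (δ * ((m : ℝ) + 1)) * r * R ^ ((m : ℝ) / 2)) =
      ENNReal.ofReal (Cχ ^ 2 * Cp ^ 2 * Cw) *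
      ENNReal.ofReal (R ^ (δ * (2 * (m : ℝ) + 3)) * r * R ^ ((m : ℝ) / 2)) := by
    rw [← ENNReal.ofReal_mul (by positivity), ← ENNReal.ofReal_mul (by positivity)]
    congr 1
    have h4 : P ^ 2 * R ^ (δ * ((m : ℝ) + 1)) = R ^ (δ * (2 * (m : ℝ) + 3)) := by
      rw [hP, ← Real.rpow_natCast, ← Real.rpow_mul hR0.le, ← Real.rpow_add hR0]
      congr 1
      push_cast
      ring
    rw [← h4]
    ring
  have h5 : ((⟨Cχ ^ 2 * Cp ^ 2 * Cw, by positivity⟩ * K1 : ℝ≥0) : ℝ≥0∞) =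
      ENNReal.ofReal (Cχ ^ 2 * Cp ^ 2 * Cw) * K1 := by
    rw [ENNReal.coe_mul]
    congr 1
    exact (ENNReal.ofReal_eq_coe_nnreal _).symm
  rw [h5]
  calc ENNReal.ofReal (Cχ ^ 2 * (Cp * P) ^ 2 * Cw) * ((∑ W ∈ S, al2 N β R δ G W) *
        (K1 * ENNReal.ofReal (R ^ (δ * ((m : ℝ) + 1)) * r * R ^ ((m : ℝ) / 2))))
      = (ENNReal.ofReal (Cχ ^ 2 * (Cp * P) ^ 2 * Cw) *
        ENNReal.ofReal (R ^ (δ * ((m : ℝ) + 1)) * r * R ^ ((m : ℝ) / 2))) * K1 *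
        ∑ W ∈ S, al2 N β R δ G W := by ring
    _ = _ := by rw [h3]; ring

private theorem Rg_mono {m : ℕ} {κ κ' c : ℝ} (h : κ ≤ κ') (hκ : κ ≤ 1) (hc : 0 ≤ c) {ζ : Z m}
    (hζ : ζ ∈ Rg m κ c) : ζ ∈ Rg m κ' c := by
  obtain ⟨h1, h2, h3, h4⟩ := hζ
  refine ⟨by linarith, by linarith, h3.trans ?_, h4.trans ?_⟩
  · exact mul_le_mul_of_nonneg_right (by linarith) (by linarith)
  · exact mul_le_mul_of_nonneg_right (by linarith) hc

/-- row GBE -/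
theorem pf_GBE (hPKT : T_PKT) (hPLN : T_PLN) (hPTW : T_PTW) (hWT3 : T_WT3) (hPUS : T_PUS)
    (hLOI : T_LOI) (hSCH : T_SCH) : T_GBE := by
  classical
  intro m N β Ψ Ξ ψ χ δ hβ hψ hχ hδ hδ4 hN
  obtain ⟨C1, hC1, hP⟩ := hPKT m β Ψ Ξ ψ χ hβ hψ hχ
  obtain ⟨Co, hCo⟩ := orth hPLN hPUS m
  obtain ⟨K, hK⟩ := one_cap hLOI hWT3 hPTW hSCH m N β Ψ Ξ ψ χ δ hβ hψ hχ hδ.le
  refine ⟨C1 + Co * K, by
    have : (0 : ℝ) ≤ Co * K := by positivity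
    linarith, ?_⟩
  intro κ R r G S z₁ hκ hκ1 hR hCR hr1 hr2 hG hGs hSK
  have hR0 : 0 < R := by linarith
  have hCK : (0 : ℝ) ≤ Co * K := by positivity
  have hr0 : 0 < r := lt_of_lt_of_le (Real.sqrt_pos.2 hR0) hr1
  have hr2' : r ≤ R / C1 := hr2.trans (div_le_div_of_nonneg_left hR0.le (by linarith) (by linarith))
  obtain ⟨-, h2⟩ := hP κ R r δ G S z₁ hκ hκ1 hδ hδ4 hR (by linarith) hG hGs
  obtain ⟨G', hG1, hG2, hG3, -⟩ := h2 hr1 hr2'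
  have hGs' : ∀ ζ, G ζ ≠ 0 → ζ ∈ Rg m (1 / 2) R⁻¹ := fun ζ hζ =>
    Rg_mono (by linarith) (by linarith) (inv_nonneg.2 hR0.le) (hGs ζ hζ)
  have h3 : ∀ z, (χ (r⁻¹ • (z - z₁)) : ℂ) * ∑ W ∈ S, Fp β ψ R δ G W z =
      ∑ k ∈ Ks m (sR R), TF (G' k) z := by
    intro z
    rw [← Finset.sum_fiberwise_of_maps_to hSK, Finset.mul_sum]
    exact Finset.sum_congr rfl fun k _ => (hG3 k z).symm
  simp only [h3]
  refine (hCo R G' (Ks m (sR R)) hR (fun k _ => hG1 k) fun k _ ζ hζ => (hG2 k ζ hζ).2).trans ?_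
  have h4 : ∀ k ∈ Ks m (sR R), ∫⁻ z, ‖TF (G' k) z‖ₑ ^ 2 ≤
      K * ENNReal.ofReal (R ^ (δ * (2 * (m : ℝ) + 3)) * r * R ^ ((m : ℝ) / 2)) *
        ∑ W ∈ S.filter (fun W => W.1 = k), al2 N β R δ G W := by
    intro k _
    have h5 := hK R r G (S.filter fun W => W.1 = k) z₁ k hR hr0 hG hGs' fun W hW =>
      (Finset.mem_filter.1 hW).2
    refine le_trans (le_of_eq ?_) h5
    refine lintegral_congr fun z => ?_
    rw [hG3 k z]
  refine (mul_le_mul' le_rfl (Finset.sum_le_sum h4)).trans ?_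
  rw [← Finset.mul_sum, Finset.sum_fiberwise_of_maps_to hSK, ← Finset.sum_mul]
  have h6 : ENNReal.ofReal (R ^ (δ * (2 * (m : ℝ) + 3)) * r * R ^ ((m : ℝ) / 2)) ≤
      ENNReal.ofReal (R ^ (lo m * δ) * (r / R)) * ENNReal.ofReal (R ^ (((m : ℝ) + 2) / 2)) := by
    rw [← ENNReal.ofReal_mul (by positivity)]
    refine ENNReal.ofReal_le_ofReal ?_
    have h7 : R ^ (((m : ℝ) + 2) / 2) = R ^ ((m : ℝ) / 2) * R := by
      rw [show ((m : ℝ) + 2) / 2 = (m : ℝ) / 2 + 1 by ring, Real.rpow_add hR0, Real.rpow_one]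
    have h8 : R ^ (δ * (2 * (m : ℝ) + 3)) ≤ R ^ (lo m * δ) := by
      refine Real.rpow_le_rpow_of_exponent_le hR ?_
      unfold lo
      have : (0 : ℝ) ≤ m := Nat.cast_nonneg m
      nlinarith
    rw [h7]
    calc R ^ (δ * (2 * (m : ℝ) + 3)) * r * R ^ ((m : ℝ) / 2)
        ≤ R ^ (lo m * δ) * r * R ^ ((m : ℝ) / 2) := by gcongr
      _ = R ^ (lo m * δ) * (r / R) * (R ^ ((m : ℝ) / 2) * R) := by field_simp
  have h9 : (Co : ℝ≥0∞) * K ≤ ENNReal.ofReal (C1 + Co * K) := by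
    rw [ENNReal.ofReal_add (by linarith) hCK, ENNReal.ofReal_mul (Nat.cast_nonneg _),
      ENNReal.ofReal_natCast, ENNReal.ofReal_coe_nnreal]
    exact le_add_self
  have h10 : ENNReal.ofReal ((C1 + Co * K) * R ^ (lo m * δ) * (r / R)) =
      ENNReal.ofReal (C1 + Co * K) * ENNReal.ofReal (R ^ (lo m * δ) * (r / R)) := by
    rw [mul_assoc, ENNReal.ofReal_mul (by linarith)]
  rw [h10]
  calc (Co : ℝ≥0∞) * (K * ENNReal.ofReal (R ^ (δ * (2 * (m : ℝ) + 3)) * r * R ^ ((m : ℝ) / 2)) *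
        ∑ W ∈ S, al2 N β R δ G W)
      = (Co * K) * ENNReal.ofReal (R ^ (δ * (2 * (m : ℝ) + 3)) * r * R ^ ((m : ℝ) / 2)) *
        ∑ W ∈ S, al2 N β R δ G W := by ring
    _ ≤ ENNReal.ofReal (C1 + Co * K) * (ENNReal.ofReal (R ^ (lo m * δ) * (r / R)) *
        ENNReal.ofReal (R ^ (((m : ℝ) + 2) / 2))) * ∑ W ∈ S, al2 N β R δ G W :=
        mul_le_mul' (mul_le_mul' h9 h6) le_rfl
    _ = _ := by ring

end Pool.Agent.H68.G.GBE
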